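import Pool.Agent.Lib.PNT.Wiener

set_option autoImplicit false

namespace Pool.Agent.Lib.PNT

open Finset Filter Topology ArithmeticFunction ArithmeticFunction.vonMangoldt

variable {q : ℕ} [NeZero q] {a : ZMod q}

/-- prime number theorem in arithmetic progressions, von Mangoldt form -/
theorem psi_ap (ha : IsUnit a) :
    Tendsto (fun x => Sm (residueClass a) x / x) atTop (𝓝 (q.totient : ℝ)⁻¹) := by
  apply wiener_ikehara (residueClass_nonneg a) (C := Real.log 4 + 4) _ (by positivity)
    (LFunctionResidueClassAux a) (continuousOn_LFunctionResidueClassAux a)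
  · intro s hs
    rw [eqOn_LFunctionResidueClassAux ha hs]
    have := (LSeriesSummable_of_abscissaOfAbsConv_lt_re (s := s)
      ((abscissaOfAbsConv_residueClass_le_one a).trans_lt (by exact_mod_cast hs))).LSeriesHasSum
    convert this using 1
    push_cast; ring
  · intro x hx
    refine le_trans ?_ (Chebyshev.psi_le_const_mul_self hx)
    exact sum_le_sum (fun n _ => residueClass_le a n)

/-- sum of `log p` over the primes `p ≤ x` in the class `a` -/
noncomputable def thetaAP (a : ZMod q) (x : ℝ) : ℝ :=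
  ∑ p ∈ (Icc 1 ⌊x⌋₊).filter (fun p : ℕ => p.Prime ∧ (p : ZMod q) = a), Real.log p

/-- prime number theorem in arithmetic progressions, Chebyshev theta form -/
theorem theta_ap (ha : IsUnit a) :
    Tendsto (fun x => thetaAP a x / x) atTop (𝓝 (q.totient : ℝ)⁻¹) := by
  obtain ⟨C, hC⟩ := Chebyshev.psi_sub_theta_le_mul_sqrt
  have h1 : ∀ x, thetaAP a x ≤ Sm (residueClass a) x ∧
      Sm (residueClass a) x - C * √x ≤ thetaAP a x := by
    intro x
    have e : Sm (residueClass a) x = thetaAP a x +
        ∑ n ∈ (Icc 1 ⌊x⌋₊).filter (fun n => ¬ n.Prime), residueClass a n := by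
      rw [Sm, ← sum_filter_add_sum_filter_not _ Nat.Prime, thetaAP, ← filter_filter, sum_filter
        (fun p : ℕ => (p : ZMod q) = a)]
      congr 1
      refine sum_congr rfl (fun p hp => ?_)
      simp only [Set.indicator_apply, Set.mem_ofPred_eq, vonMangoldt_apply_prime (mem_filter.mp hp).2]
    have h2 := hC x
    rw [Chebyshev.psi_sub_theta_eq_sum_not_prime] at h2
    have h3 : ∑ n ∈ (Icc 1 ⌊x⌋₊).filter (fun n => ¬ n.Prime), residueClass a n ≤
        ∑ n ∈ (Ioc 0 ⌊x⌋₊).filter (fun n => ¬ n.Prime), vonMangoldt n :=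
      sum_le_sum (fun n _ => residueClass_le a n)
    have h4 : 0 ≤ ∑ n ∈ (Icc 1 ⌊x⌋₊).filter (fun n => ¬ n.Prime), residueClass a n :=
      sum_nonneg (fun n _ => residueClass_nonneg a n)
    constructor <;> linarith
  have h2 : Tendsto (fun x : ℝ => Sm (residueClass a) x / x - C * (√x)⁻¹) atTop
      (𝓝 ((q.totient : ℝ)⁻¹ - C * 0)) :=
    (psi_ap ha).sub ((tendsto_inv_atTop_zero.comp Real.tendsto_sqrt_atTop).const_mul C)
  rw [mul_zero, sub_zero] at h2
  refine tendsto_of_tendsto_of_tendsto_of_le_of_le' h2 (psi_ap ha) ?_ ?_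
  · filter_upwards [eventually_gt_atTop 0] with x hx
    have e : C * (√x)⁻¹ = C * √x / x := by
      have := Real.sqrt_pos.mpr hx
      rw [mul_div_assoc, Real.sqrt_div_self]
    rw [e, ← sub_div]
    exact div_le_div_of_nonneg_right (h1 x).2 hx.le
  · filter_upwards [eventually_gt_atTop 0] with x hx
    exact div_le_div_of_nonneg_right (h1 x).1 hx.le

/-- primes of a given class in intervals of ratio `1 + ε` -/
theorem exists_prime_ap (ha : IsUnit a) {ε : ℝ} (hε : 0 < ε) :
    ∀ᶠ x : ℝ in atTop, ∃ p : ℕ, p.Prime ∧ (p : ZMod q) = a ∧ x < p ∧ p ≤ (1 + ε) * x := by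
  have h0 : (0 : ℝ) < (q.totient : ℝ)⁻¹ :=
    inv_pos.mpr (by exact_mod_cast Nat.totient_pos.mpr (NeZero.pos q))
  have h1 := (((theta_ap ha).comp (tendsto_id.const_mul_atTop (by linarith : 0 < 1 + ε))).const_mul
    (1 + ε)).sub (theta_ap ha)
  filter_upwards [h1.eventually (lt_mem_nhds (a := 0) (by nlinarith)), eventually_gt_atTop 0]
    with x h2 hx
  by_contra hc
  have h3 : thetaAP a ((1 + ε) * x) ≤ thetaAP a x := by
    apply sum_le_sum_of_subset_of_nonneg _ (fun n _ _ => Real.log_natCast_nonneg n)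
    intro p hp
    simp only [mem_filter, mem_Icc] at hp ⊢
    refine ⟨⟨hp.1.1, Nat.le_floor (not_lt.mp fun h => hc ⟨p, hp.2.1, hp.2.2, h, ?_⟩)⟩, hp.2⟩
    exact (Nat.le_floor_iff (by positivity)).mp hp.1.2
  have e : (1 + ε) * (thetaAP a ((1 + ε) * x) / ((1 + ε) * x)) = thetaAP a ((1 + ε) * x) / x := by
    field_simp
  simp only [Function.comp, id, e] at h2
  linarith [div_le_div_of_nonneg_right h3 hx.le]

/-- primes in intervals of ratio `1 + ε` -/
theorem exists_prime {ε : ℝ} (hε : 0 < ε) :
    ∀ᶠ x : ℝ in atTop, ∃ p : ℕ, p.Prime ∧ x < p ∧ p ≤ (1 + ε) * x := by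
  filter_upwards [exists_prime_ap (q := 1) (a := 1) isUnit_one hε] with x ⟨p, h1, _, h2⟩
    using ⟨p, h1, h2⟩

/-- prime number theorem for the Chebyshev function theta -/
theorem theta_tendsto : Tendsto (fun x => Chebyshev.theta x / x) atTop (𝓝 1) := by
  have h := theta_ap (q := 1) (a := 1) isUnit_one
  simp only [Nat.totient_one, Nat.cast_one, inv_one] at h
  refine h.congr (fun x => ?_)
  simp only [thetaAP, Subsingleton.elim (_ : ZMod 1) 1, and_true]
  rfl

/-- prime number theorem for the Chebyshev function psi -/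
theorem psi_tendsto : Tendsto (fun x => Chebyshev.psi x / x) atTop (𝓝 1) := by
  have h := psi_ap (q := 1) (a := 1) isUnit_one
  simp only [Nat.totient_one, Nat.cast_one, inv_one] at h
  refine h.congr (fun x => ?_)
  simp only [Sm, Set.indicator_apply, Set.mem_ofPred_eq, Subsingleton.elim (_ : ZMod 1) 1, if_true]
  rfl

/-- the prime number theorem -/
theorem pi_tendsto :
    Tendsto (fun x : ℝ => (Nat.primeCounting ⌊x⌋₊ : ℝ) / (x / Real.log x)) atTop (𝓝 1) := by
  obtain ⟨C, hC⟩ := Chebyshev.primeCounting_sub_theta_div_log_isBigO.bound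
  have h1 : Tendsto (fun x : ℝ => (Nat.primeCounting ⌊x⌋₊ : ℝ) / (x / Real.log x) -
      Chebyshev.theta x / x) atTop (𝓝 0) := by
    have h2 := (tendsto_inv_atTop_zero.comp Real.tendsto_log_atTop).const_mul C
    rw [mul_zero] at h2
    refine squeeze_zero_norm' ?_ h2
    filter_upwards [hC, eventually_gt_atTop 1] with x h3 hx
    have hl := Real.log_pos hx
    have e : (Nat.primeCounting ⌊x⌋₊ : ℝ) / (x / Real.log x) - Chebyshev.theta x / x =
        (Nat.primeCounting ⌊x⌋₊ - Chebyshev.theta x / Real.log x) * (Real.log x / x) := by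
      field_simp
    rw [e, norm_mul]
    refine (mul_le_mul_of_nonneg_right h3 (norm_nonneg _)).trans (le_of_eq ?_)
    rw [Real.norm_of_nonneg (by positivity), Real.norm_of_nonneg (by positivity)]
    simp only [Function.comp]
    field_simp
  simpa using h1.add theta_tendsto

end Pool.Agent.Lib.PNT
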