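import Pool.Agent.Lib.PNT.Kernel

set_option autoImplicit false

namespace Pool.Agent.Lib.PNT

open Finset Filter Topology MeasureTheory Complex

lemma term_re (c : ℕ → ℝ) {σ : ℝ} (hσ : σ ≠ 0) (t y : ℝ) (n : ℕ) :
    (LSeries.term (fun n => (c n : ℂ)) (σ + t * I) n * cexp (t * y * I)).re =
      c n / (n : ℝ) ^ σ * Real.cos (t * (y - Real.log n)) := by
  rcases Nat.eq_zero_or_pos n with rfl | hn
  · simp [Real.zero_rpow hσ]
  · have hn' : (0 : ℝ) < n := by exact_mod_cast hn
    have e : LSeries.term (fun n => (c n : ℂ)) (σ + t * I) n * cexp (t * y * I) =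
        ((c n / (n : ℝ) ^ σ : ℝ) : ℂ) * cexp ((t * (y - Real.log n) : ℝ) * I) := by
      rw [LSeries.term_of_ne_zero hn.ne', cpow_def_of_ne_zero (by exact_mod_cast hn.ne'),
        Real.rpow_def_of_pos hn', ← natCast_log]
      push_cast
      rw [div_eq_mul_inv, div_eq_mul_inv, ← Complex.exp_neg, ← Complex.exp_neg, mul_assoc,
        mul_assoc (c n : ℂ), ← Complex.exp_add, ← Complex.exp_add]
      congr 2; ring
    rw [e, re_ofReal_mul, exp_ofReal_mul_I_re]

lemma fourier_sum (c : ℕ → ℝ) (E : ℂ → ℂ) {σ : ℝ} (hσ : 1 < σ)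
    (hE : ∀ s : ℂ, 1 < s.re → LSeriesHasSum (fun n => (c n : ℂ)) s (E s)) {T : ℝ} (hT : 0 < T)
    (y : ℝ) : HasSum (fun n : ℕ => c n / (n : ℝ) ^ σ * Kf T (y - Real.log n))
      (∫ t in (0 : ℝ)..T, (1 - t / T) * (E (σ + t * I) * cexp (t * y * I)).re) := by
  have hs : Summable (fun n : ℕ => |c n / (n : ℝ) ^ σ|) := by
    have := (re_tsum (hE (σ + (0 : ℝ) * I) (by simpa using hσ)).summable)
    have h2 := ((hE (σ + (0 : ℝ) * I) (by simpa using hσ)).mul_right (cexp ((0 : ℝ) * y * I))).mapL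
      reCLM
    simp only [reCLM_apply, term_re c (by linarith : σ ≠ 0)] at h2
    simpa using h2.summable.abs
  simp only [Kf, ← intervalIntegral.integral_const_mul]
  apply intervalIntegral.hasSum_integral_of_dominated_convergence
    (fun n _ => |c n / (n : ℝ) ^ σ|) (fun n => Continuous.aestronglyMeasurable (by fun_prop))
  · intro n
    filter_upwards with t ht
    rw [Set.uIoc_of_le hT.le] at ht
    have h1 : t / T ≤ 1 := by rw [div_le_one hT]; exact ht.2
    have h2 : 0 ≤ t / T := div_nonneg ht.1.le hT.le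
    rw [norm_mul, norm_mul, Real.norm_eq_abs, Real.norm_eq_abs, Real.norm_eq_abs,
      abs_of_nonneg (by linarith : 0 ≤ 1 - t / T)]
    exact mul_le_of_le_one_right (abs_nonneg _)
      (mul_le_one₀ (by linarith) (abs_nonneg _) (Real.abs_cos_le_one _))
  · filter_upwards with t _ using hs
  · simp
  · filter_upwards with t _
    have h2 := ((hE (σ + t * I) (by simpa using hσ)).mul_right (cexp (t * y * I))).mapL reCLM
    simp only [reCLM_apply, term_re c (by linarith : σ ≠ 0)] at h2
    simpa only [mul_left_comm] using h2.mul_left (1 - t / T)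

/-- the boundary term -/
noncomputable def Rf (E : ℂ → ℂ) (T y : ℝ) : ℝ :=
  ∫ t in (0 : ℝ)..T, (1 - t / T) * (E (1 + t * I) * cexp (t * y * I)).re

lemma fourier_one (c : ℕ → ℝ) (E : ℂ → ℂ) (hc : ContinuousOn E {s | 1 ≤ s.re})
    (hE : ∀ s : ℂ, 1 < s.re → LSeriesHasSum (fun n => (c n : ℂ)) s (E s)) {T : ℝ} (hT : 0 < T)
    (y : ℝ) (hs : Summable (fun n : ℕ => |c n| / n * (1 / (1 + (y - Real.log n) ^ 2)))) :
    ∑' n : ℕ, c n / n * Kf T (y - Real.log n) = Rf E T y := by
  have t1 : Tendsto (fun σ : ℝ => ∑' n : ℕ, c n / (n : ℝ) ^ σ * Kf T (y - Real.log n)) (𝓝[>] 1)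
      (𝓝 (∑' n : ℕ, c n / n * Kf T (y - Real.log n))) := by
    apply tendsto_tsum_of_dominated_convergence (hs.mul_left (2 * T + 4 / T))
    · intro n
      rcases Nat.eq_zero_or_pos n with rfl | hn
      · refine tendsto_const_nhds.congr' ?_
        filter_upwards [self_mem_nhdsWithin] with σ hσ
        have : σ ≠ 0 := by have : 1 < σ := hσ; linarith
        simp [Real.zero_rpow this]
      · have hn' : (0 : ℝ) < n := by exact_mod_cast hn
        have : ContinuousAt (fun σ : ℝ => c n / (n : ℝ) ^ σ * Kf T (y - Real.log n)) 1 :=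
          (continuousAt_const.div (Real.continuousAt_const_rpow hn'.ne')
            (by simpa using hn.ne')).mul continuousAt_const
        simpa using this.tendsto.mono_left nhdsWithin_le_nhds
    · filter_upwards [self_mem_nhdsWithin] with σ hσ n
      have hσ' : 1 < σ := hσ
      rw [norm_mul, Real.norm_eq_abs, Real.norm_eq_abs, abs_of_nonneg (Kf_nonneg hT _),
        mul_left_comm, abs_div, abs_of_nonneg (by positivity : 0 ≤ (n : ℝ) ^ σ)]
      apply mul_le_mul _ (Kf_le' hT _) (Kf_nonneg hT _) (by positivity)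
      rcases Nat.eq_zero_or_pos n with rfl | hn
      · simp [Real.zero_rpow (by linarith : σ ≠ 0)]
      · have hn' : (1 : ℝ) ≤ n := by exact_mod_cast hn
        exact div_le_div_of_nonneg_left (abs_nonneg _) (by linarith)
          (Real.self_le_rpow_of_one_le hn' hσ'.le)
  have hcont : Continuous (fun z : ℝ × ℝ => E ((max z.1 1 : ℝ) + z.2 * I)) :=
    hc.comp_continuous (by fun_prop) (fun z => by simp)
  have t2 : Continuous (fun σ : ℝ => ∫ t in (0 : ℝ)..T,
      (1 - t / T) * (E ((max σ 1 : ℝ) + t * I) * cexp (t * y * I)).re) :=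
    intervalIntegral.continuous_parametric_intervalIntegral_of_continuous'
      (show Continuous (fun z : ℝ × ℝ => (1 - z.2 / T) *
        (E ((max z.1 1 : ℝ) + z.2 * I) * cexp (z.2 * y * I)).re) from
      Continuous.mul (by fun_prop) (continuous_re.comp (hcont.mul (by fun_prop)))) _ _
  have t3 := (t2.tendsto 1).mono_left (nhdsWithin_le_nhds (s := Set.Ioi 1))
  simp only [max_self, ofReal_one] at t3
  refine tendsto_nhds_unique (t1.congr' ?_) t3
  filter_upwards [self_mem_nhdsWithin] with σ hσ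
  rw [(fourier_sum c E hσ hE hT y).tsum_eq, max_eq_left (le_of_lt hσ)]

lemma Rf_tendsto (E : ℂ → ℂ) (hc : ContinuousOn E {s | 1 ≤ s.re}) {T : ℝ} (hT : 0 < T) :
    Tendsto (Rf E T) atTop (𝓝 0) := by
  have hcont : Continuous (fun t : ℝ => E (1 + t * I)) :=
    hc.comp_continuous (by fun_prop) (fun z => by simp)
  have h1 := Real.tendsto_integral_exp_smul_cocompact
    ((Set.Ioc 0 T).indicator (fun t : ℝ => ((1 - t / T : ℝ) : ℂ) * E (1 + t * I)))
  have h2 : Tendsto (fun y : ℝ => -(y / (2 * Real.pi))) atTop (cocompact ℝ) := by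
    rw [cocompact_eq_atBot_atTop]
    exact (tendsto_neg_atTop_atBot.comp (tendsto_id.atTop_div_const (by positivity))).mono_right
      le_sup_left
  have h3 := (continuous_re.tendsto 0).comp (h1.comp h2)
  refine h3.congr (fun y => ?_)
  have e0 : ∀ (φ : ℝ → Circle) (F : ℝ → ℂ) (v : ℝ), φ v • (Set.Ioc 0 T).indicator F v =
      (Set.Ioc 0 T).indicator (fun v => φ v • F v) v := by
    intro φ F v
    by_cases h : v ∈ Set.Ioc 0 T <;> simp [h]
  simp only [Function.comp]
  simp only [e0 (fun v => Real.fourierChar (-(v * -(y / (2 * Real.pi)))))]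
  rw [integral_indicator measurableSet_Ioc, ← intervalIntegral.integral_of_le hT.le, Rf]
  have e : ∀ t : ℝ, (Real.fourierChar (-(t * -(y / (2 * Real.pi)))) •
      (((1 - t / T : ℝ) : ℂ) * E (1 + t * I))) =
      ((1 - t / T : ℝ) : ℂ) * (E (1 + t * I) * cexp (t * y * I)) := by
    intro t
    rw [Circle.smul_def, Real.fourierChar_apply, smul_eq_mul, mul_comm, mul_assoc]
    congr 3
    have : (Real.pi : ℂ) ≠ 0 := by exact_mod_cast Real.pi_ne_zero
    push_cast; field_simp
  simp only [e]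
  have hc2 : Continuous (fun t : ℝ => ((1 - t / T : ℝ) : ℂ) * (E (1 + t * I) * cexp (t * y * I))) :=
    Continuous.mul (by fun_prop) (hcont.mul (by fun_prop))
  rw [← reCLM_apply, ← reCLM.intervalIntegral_comp_comm (hc2.intervalIntegrable _ _)]
  simp only [reCLM_apply, re_ofReal_mul]

end Pool.Agent.Lib.PNT
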