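import Mathlib

set_option autoImplicit false

namespace Pool.Agent.Lib.PNT

open Finset Filter Topology MeasureTheory

/-- The Fejer kernel on the line. -/
noncomputable def Kf (T u : ℝ) : ℝ := ∫ t in (0 : ℝ)..T, (1 - t / T) * Real.cos (t * u)

lemma Kf_cont (T : ℝ) : Continuous (Kf T) :=
  intervalIntegral.continuous_parametric_intervalIntegral_of_continuous' (by fun_prop) _ _

lemma Kf_eq {T u : ℝ} (hT : 0 < T) (hu : u ≠ 0) : Kf T u = (1 - Real.cos (T * u)) / (T * u ^ 2) := by
  have h : ∀ t ∈ Set.uIcc (0 : ℝ) T, HasDerivAt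
      (fun t => (1 - t / T) * (Real.sin (t * u) / u) - Real.cos (t * u) / (T * u ^ 2))
      ((1 - t / T) * Real.cos (t * u)) t := by
    intro t _
    have h1 : HasDerivAt (fun t : ℝ => t * u) u t := by simpa using (hasDerivAt_id t).mul_const u
    have h2 : HasDerivAt (fun t : ℝ => 1 - t / T) (-(1 / T)) t :=
      ((hasDerivAt_id t).div_const T).const_sub 1
    refine ((h2.mul (h1.sin.div_const u)).sub (h1.cos.div_const (T * u ^ 2))).congr_deriv ?_
    field_simp; ring
  rw [Kf, intervalIntegral.integral_eq_sub_of_hasDerivAt h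
    (Continuous.intervalIntegrable (by fun_prop) _ _)]
  simp only [div_self hT.ne', zero_mul, Real.sin_zero, Real.cos_zero]
  ring

lemma Kf_ge {T u : ℝ} (hT : 0 < T) (hu : |u| ≤ 1 / T) : T / 4 ≤ Kf T u := by
  have h1 : ∫ t in (0 : ℝ)..T, (1 - t / T) * (1 / 2) = T / 4 := by
    rw [intervalIntegral.integral_mul_const, intervalIntegral.integral_sub (by simp)
      (Continuous.intervalIntegrable (by fun_prop) _ _), intervalIntegral.integral_div]
    simp; field_simp; ring
  rw [← h1]
  apply intervalIntegral.integral_mono_on hT.le (Continuous.intervalIntegrable (by fun_prop) _ _)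
    (Continuous.intervalIntegrable (by fun_prop) _ _)
  intro t ht
  apply mul_le_mul_of_nonneg_left _ (by rw [sub_nonneg, div_le_one hT]; exact ht.2)
  have h2 : |t * u| ≤ 1 := by
    rw [abs_mul, abs_of_nonneg ht.1]
    calc t * |u| ≤ T * (1 / T) := mul_le_mul ht.2 hu (abs_nonneg _) hT.le
      _ = 1 := by field_simp
  have h3 := Real.one_sub_sq_div_two_le_cos (x := t * u)
  have h4 : (t * u) ^ 2 ≤ 1 := by rw [← sq_abs]; nlinarith [abs_nonneg (t * u)]
  linarith

lemma Kf_nonneg {T : ℝ} (hT : 0 < T) (u : ℝ) : 0 ≤ Kf T u := by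
  by_cases hu : u = 0
  · exact le_trans (by positivity) (Kf_ge hT (by rw [hu]; simp [hT.le]))
  · rw [Kf_eq hT hu]
    exact div_nonneg (by linarith [Real.cos_le_one (T * u)]) (by positivity)

lemma Kf_le {T u : ℝ} (hT : 0 < T) (hu : u ≠ 0) : Kf T u ≤ 2 / (T * u ^ 2) := by
  rw [Kf_eq hT hu]
  exact div_le_div_of_nonneg_right (by linarith [Real.neg_one_le_cos (T * u)]) (by positivity)

lemma Kf_le' {T : ℝ} (hT : 0 < T) (u : ℝ) : Kf T u ≤ (2 * T + 4 / T) * (1 / (1 + u ^ 2)) := by
  rw [mul_one_div, le_div_iff₀ (by positivity)]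
  have h0 := Kf_nonneg hT u
  have h4 : 0 < 4 / T := by positivity
  by_cases hu : u ^ 2 ≤ 1
  · have : Kf T u ≤ T := by
      have := intervalIntegral.norm_integral_le_of_norm_le_const (a := 0) (b := T) (C := 1)
        (f := fun t => (1 - t / T) * Real.cos (t * u)) (fun t ht => by
          rw [Set.uIoc_of_le hT.le] at ht
          have h1 : t / T ≤ 1 := by rw [div_le_one hT]; exact ht.2
          have h2 : 0 ≤ t / T := div_nonneg ht.1.le hT.le
          rw [norm_mul, Real.norm_eq_abs, Real.norm_eq_abs, abs_of_nonneg (by linarith)]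
          exact mul_le_one₀ (by linarith) (abs_nonneg _) (Real.abs_cos_le_one _))
      rw [one_mul, sub_zero, abs_of_pos hT] at this
      exact (le_abs_self _).trans this
    nlinarith
  · have h1 := Kf_le hT (u := u) (by rintro rfl; simp at hu)
    have h2 : 0 < u ^ 2 := by linarith
    rw [le_div_iff₀ (by positivity)] at h1
    have h3 : Kf T u * u ^ 2 ≤ 2 / T := by rw [le_div_iff₀ hT]; linarith
    have h5 : 4 / T = 2 * (2 / T) := by ring
    nlinarith

/-- partial sums -/
noncomputable def Sm (g : ℕ → ℝ) (x : ℝ) : ℝ := ∑ n ∈ Icc 1 ⌊x⌋₊, g n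

lemma summable_wt : Summable (fun j : ℤ => 1 / (1 + (j : ℝ) ^ 2)) := by
  refine Summable.of_nonneg_of_le (fun j => by positivity) (fun j => ?_)
    ((Real.summable_one_div_int_pow.mpr (by norm_num : 1 < 2)).add (hasSum_ite_eq 0 1).summable)
  by_cases h : j = 0
  · simp [h]
  · have : (j : ℝ) ≠ 0 := by exact_mod_cast h
    rw [if_neg h, add_zero]
    exact one_div_le_one_div_of_le (by positivity) (by linarith)

/-- an absolute constant -/
noncomputable def c0 : ℝ := 3 * Real.exp 1 * ∑' j : ℤ, 1 / (1 + (j : ℝ) ^ 2)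

lemma c0_nonneg : 0 ≤ c0 := mul_nonneg (by positivity) (tsum_nonneg (fun _ => by positivity))

lemma blk {g : ℕ → ℝ} (hg : ∀ n, 0 ≤ g n) {C : ℝ} (hC : ∀ x, 0 ≤ x → Sm g x ≤ C * x) (y : ℝ)
    (s : Finset ℕ) : ∑ n ∈ s, g n / n * (1 / (1 + (y - Real.log n) ^ 2)) ≤ C * c0 := by
  have hC0 : 0 ≤ C := by
    have := hC 1 zero_le_one
    have h2 : 0 ≤ Sm g 1 := sum_nonneg (fun n _ => hg n)
    linarith
  rw [← sum_fiberwise_of_maps_to (g := fun n : ℕ => ⌊Real.log n - y⌋)
    (fun n hn => mem_image_of_mem (fun n : ℕ => ⌊Real.log n - y⌋) hn)]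
  have key : ∀ j : ℤ, ∑ n ∈ s.filter (fun n : ℕ => ⌊Real.log n - y⌋ = j),
      g n / n * (1 / (1 + (y - Real.log n) ^ 2)) ≤ C * (3 * Real.exp 1) * (1 / (1 + (j : ℝ) ^ 2)) := by
    intro j
    have h1 : ∑ n ∈ s.filter (fun n : ℕ => ⌊Real.log n - y⌋ = j),
        g n / n * (1 / (1 + (y - Real.log n) ^ 2)) ≤ ∑ n ∈ Icc 1 ⌊Real.exp (y + j + 1)⌋₊,
        g n * (Real.exp (-(y + j)) * (3 * (1 / (1 + (j : ℝ) ^ 2)))) := by
      rw [← sum_filter_add_sum_filter_not _ (fun n => n = 0), sum_eq_zero (fun n hn => by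
        rw [(mem_filter.mp hn).2]; simp), zero_add]
      refine le_trans (sum_le_sum ?_) (sum_le_sum_of_subset_of_nonneg ?_
        (fun n _ _ => mul_nonneg (hg n) (by positivity)))
      · intro n hn
        simp only [mem_filter] at hn
        have hn0 : (0 : ℝ) < n := by exact_mod_cast Nat.pos_of_ne_zero hn.2
        have a1 := Int.floor_le (Real.log n - y)
        have a2 := Int.lt_floor_add_one (Real.log n - y)
        rw [hn.1.2] at a1 a2
        rw [div_eq_mul_inv, mul_assoc]
        apply mul_le_mul_of_nonneg_left _ (hg n)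
        apply mul_le_mul _ _ (by positivity) (by positivity)
        · rw [Real.exp_neg]
          apply inv_anti₀ (Real.exp_pos _)
          rw [← Real.le_log_iff_exp_le hn0]; linarith
        · rw [mul_one_div, div_le_div_iff₀ (by positivity) (by positivity)]
          nlinarith [sq_nonneg (2 * (Real.log n - y) - j)]
      · intro n hn
        simp only [mem_filter] at hn
        have hn0 : (0 : ℝ) < n := by exact_mod_cast Nat.pos_of_ne_zero hn.2
        have a2 := Int.lt_floor_add_one (Real.log n - y)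
        rw [hn.1.2] at a2
        refine mem_Icc.mpr ⟨Nat.pos_of_ne_zero hn.2, Nat.le_floor ?_⟩
        rw [← Real.log_le_iff_le_exp hn0]; linarith
    refine h1.trans ?_
    rw [← sum_mul]
    refine (mul_le_mul_of_nonneg_right (hC _ (Real.exp_pos _).le) (by positivity)).trans
      (le_of_eq ?_)
    rw [Real.exp_add, Real.exp_neg]
    field_simp
  refine (sum_le_sum (fun j _ => key j)).trans ?_
  rw [← mul_sum, c0, mul_assoc C]
  apply mul_le_mul_of_nonneg_left _ hC0
  exact mul_le_mul_of_nonneg_left (summable_wt.sum_le_tsum _ (fun _ _ => by positivity))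
    (by positivity)

lemma blk_summable {g : ℕ → ℝ} (hg : ∀ n, 0 ≤ g n) {C : ℝ} (hC : ∀ x, 0 ≤ x → Sm g x ≤ C * x)
    (y : ℝ) : Summable (fun n : ℕ => g n / n * (1 / (1 + (y - Real.log n) ^ 2))) :=
  summable_of_sum_le (fun n => by have := hg n; positivity) (blk hg hC y)

end Pool.Agent.Lib.PNT
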