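import Pool.Agent.Lib.PNT.Fourier

set_option autoImplicit false

namespace Pool.Agent.Lib.PNT

open Finset Filter Topology MeasureTheory

/-- smoothed version of the function `exp (-u)` on the positive half line -/
noncomputable def kk (T H u : ℝ) : ℝ := ∫ v in (0 : ℝ)..H, Kf T (u - v) * Real.exp (-v)

noncomputable def II (T η : ℝ) : ℝ := ∫ w in (-η)..η, Kf T w

lemma II_ge {T η : ℝ} (hT : 0 < T) (h : 1 / T ≤ η) : 1 / 2 ≤ II T η := by
  have h0 : 0 < 1 / T := by positivity
  have h1 : ∫ _w in (-(1 / T))..(1 / T), T / 4 = 1 / 2 := by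
    simp only [intervalIntegral.integral_const, smul_eq_mul]; field_simp; ring
  rw [← h1]
  refine le_trans (intervalIntegral.integral_mono_on (by linarith) (by simp)
    ((Kf_cont T).intervalIntegrable _ _) (fun w hw => Kf_ge hT (abs_le.mpr hw))) ?_
  exact intervalIntegral.integral_mono_interval (by linarith) (by linarith) h
    (Eventually.of_forall (Kf_nonneg hT)) ((Kf_cont T).intervalIntegrable _ _)

lemma II_eq (T η u : ℝ) : ∫ v in (u - η)..(u + η), Kf T (u - v) = II T η := by
  rw [intervalIntegral.integral_comp_sub_left (Kf T) u, II]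
  congr 1 <;> ring

lemma kk_nonneg {T H : ℝ} (hT : 0 < T) (hH : 0 ≤ H) (u : ℝ) : 0 ≤ kk T H u :=
  intervalIntegral.integral_nonneg hH (fun _ _ => mul_nonneg (Kf_nonneg hT _) (Real.exp_pos _).le)

lemma kk_ge {T H η u : ℝ} (hT : 0 < T) (hη : 0 ≤ η) (h1 : η ≤ u) (h2 : u ≤ H - η) :
    II T η * Real.exp (-η - u) ≤ kk T H u := by
  have hc := Kf_cont T
  rw [← II_eq T η u, ← intervalIntegral.integral_mul_const]
  refine le_trans (intervalIntegral.integral_mono_on (by linarith)
    (Continuous.intervalIntegrable (by fun_prop) _ _)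
    (Continuous.intervalIntegrable (u := fun v => Kf T (u - v) * Real.exp (-v)) (by fun_prop) _ _)
    (fun v hv => mul_le_mul_of_nonneg_left (Real.exp_le_exp.mpr (by linarith [hv.2]))
      (Kf_nonneg hT _))) ?_
  exact intervalIntegral.integral_mono_interval (by linarith) (by linarith) (by linarith)
    (Eventually.of_forall (fun _ => mul_nonneg (Kf_nonneg hT _) (Real.exp_pos _).le))
    (Continuous.intervalIntegrable (by fun_prop) _ _)

lemma kk_le {T H η : ℝ} (hT : 0 < T) (hη : 0 < η) (hH : 0 ≤ H) (u : ℝ) :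
    kk T H u ≤ (if -η ≤ u then II T η * Real.exp (η - u) else 0) +
      H * (2 * (2 + (1 + 2 * H ^ 2) / η ^ 2) / T) * (1 / (1 + u ^ 2)) := by
  have hc := Kf_cont T
  set B : ℝ := (2 * (2 + (1 + 2 * H ^ 2) / η ^ 2) / T) * (1 / (1 + u ^ 2)) with hB
  have hB0 : 0 ≤ B := by positivity
  set φ : ℝ → ℝ := fun v => Kf T (u - v) * Real.exp (η - u) with hφ
  have hφc : Continuous φ := by fun_prop
  have hφ0 : ∀ v, 0 ≤ φ v := fun v => mul_nonneg (Kf_nonneg hT _) (Real.exp_pos _).le
  have hi : IntervalIntegrable ((Set.Ioc (u - η) (u + η)).indicator φ) volume 0 H :=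
    ⟨(hφc.intervalIntegrable 0 H).1.indicator measurableSet_Ioc,
      (hφc.intervalIntegrable 0 H).2.indicator measurableSet_Ioc⟩
  have h1 : kk T H u ≤ ∫ v in (0 : ℝ)..H, ((Set.Ioc (u - η) (u + η)).indicator φ v + B) := by
    apply intervalIntegral.integral_mono_on hH (Continuous.intervalIntegrable (by fun_prop) _ _)
      (hi.add (by simp))
    intro v hv
    by_cases h : v ∈ Set.Ioc (u - η) (u + η)
    · rw [Set.indicator_of_mem h]
      have := mul_le_mul_of_nonneg_left (Real.exp_le_exp.mpr (by linarith [h.1] : -v ≤ η - u))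
        (Kf_nonneg hT (u - v))
      simp only [hφ]; linarith
    · rw [Set.indicator_of_notMem h, zero_add]
      have a1 : η ^ 2 ≤ (u - v) ^ 2 := by
        simp only [Set.mem_Ioc, not_and_or, not_lt, not_le] at h
        rcases h with h | h <;> nlinarith
      have a2 : 0 < (u - v) ^ 2 := lt_of_lt_of_le (by positivity) a1
      have a3 := Kf_le hT (u := u - v) (by intro h0; rw [h0] at a2; simp at a2)
      have a4 : Real.exp (-v) ≤ 1 := Real.exp_le_one_iff.mpr (by linarith [hv.1])
      refine (mul_le_of_le_one_right (Kf_nonneg hT _) a4).trans (a3.trans ?_)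
      rw [hB, div_mul_div_comm, mul_one, div_le_div_iff₀ (by positivity) (by positivity)]
      have a5 : 1 + 2 * H ^ 2 ≤ (1 + 2 * H ^ 2) / η ^ 2 * (u - v) ^ 2 := by
        rw [div_mul_eq_mul_div, le_div_iff₀ (by positivity)]
        exact mul_le_mul_of_nonneg_left a1 (by positivity)
      have a6 : v ^ 2 ≤ H ^ 2 := pow_le_pow_left₀ hv.1 hv.2 2
      have a7 : 1 + u ^ 2 ≤ (2 + (1 + 2 * H ^ 2) / η ^ 2) * (u - v) ^ 2 := by
        nlinarith [sq_nonneg (u - 2 * v)]
      nlinarith
  rw [intervalIntegral.integral_add hi (by simp), intervalIntegral.integral_const, sub_zero,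
    smul_eq_mul, intervalIntegral.integral_of_le hH, setIntegral_indicator measurableSet_Ioc] at h1
  rw [mul_assoc H, ← hB]
  refine h1.trans (add_le_add_left ?_ _)
  split_ifs with h
  · rw [← II_eq T η u, ← intervalIntegral.integral_mul_const,
      intervalIntegral.integral_of_le (by linarith)]
    exact setIntegral_mono_set (hφc.intervalIntegrable _ _).1 (Eventually.of_forall hφ0)
      Set.inter_subset_right.eventuallyLE
  · rw [Set.Ioc_inter_Ioc, Set.Ioc_eq_empty (not_lt.mpr
      (inf_le_right.trans (le_trans (by linarith) le_sup_left)))]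
    simp

/-- the smoothed sum -/
noncomputable def Sg (g : ℕ → ℝ) (T H y : ℝ) : ℝ := ∑' n : ℕ, g n / n * kk T H (y - Real.log n)

lemma Sg_upper {g : ℕ → ℝ} (hg : ∀ n, 0 ≤ g n) {C : ℝ} (hC : ∀ x, 0 ≤ x → Sm g x ≤ C * x)
    {T H η : ℝ} (hT : 1 / T ≤ η) (hT0 : 0 < T) (hH : 0 ≤ H) (y : ℝ) :
    Summable (fun n : ℕ => g n / n * kk T H (y - Real.log n)) ∧
    Sg g T H y ≤ II T η * Real.exp (η - y) * Sm g (Real.exp (y + η)) +
      H * (2 * (2 + (1 + 2 * H ^ 2) / η ^ 2) / T) * (C * c0) := by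
  have hη : 0 < η := lt_of_lt_of_le (by positivity) hT
  have hI : 0 ≤ II T η := le_trans (by norm_num) (II_ge hT0 hT)
  have h0 : ∀ n : ℕ, 0 ≤ g n / n * kk T H (y - Real.log n) := fun n =>
    mul_nonneg (div_nonneg (hg n) (by positivity)) (kk_nonneg hT0 hH _)
  have key : ∀ s : Finset ℕ, ∑ n ∈ s, g n / n * kk T H (y - Real.log n) ≤
      II T η * Real.exp (η - y) * Sm g (Real.exp (y + η)) +
      H * (2 * (2 + (1 + 2 * H ^ 2) / η ^ 2) / T) * (C * c0) := by
    intro s
    refine (sum_le_sum (fun n _ => mul_le_mul_of_nonneg_left (kk_le hT0 hη hH _)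
      (div_nonneg (hg n) (by positivity)))).trans ?_
    simp only [mul_add (_ / _), sum_add_distrib, mul_left_comm (g _ / _) (H * _), ← mul_sum]
    refine add_le_add ?_ (mul_le_mul_of_nonneg_left (blk hg hC y s) (by positivity))
    rw [Sm, mul_sum]
    have e : ∀ n ∈ s, g n / n * (if -η ≤ y - Real.log n then
        II T η * Real.exp (η - (y - Real.log n)) else 0) =
        if n ∈ Icc 1 ⌊Real.exp (y + η)⌋₊ then II T η * Real.exp (η - y) * g n else 0 := by
      intro n _
      rcases Nat.eq_zero_or_pos n with rfl | hn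
      · simp
      · have hn' : (0 : ℝ) < n := by exact_mod_cast hn
        have : -η ≤ y - Real.log n ↔ n ∈ Icc 1 ⌊Real.exp (y + η)⌋₊ := by
          rw [mem_Icc, Nat.le_floor_iff (Real.exp_pos _).le, ← Real.log_le_iff_le_exp hn']
          exact ⟨fun h => ⟨hn, by linarith⟩, fun h => by linarith [h.2]⟩
        simp only [this]
        split_ifs
        · rw [show η - (y - Real.log n) = (η - y) + Real.log n by ring, Real.exp_add,
            Real.exp_log hn']
          field_simp
        · simp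
    rw [sum_congr rfl e, ← sum_filter]
    exact sum_le_sum_of_subset_of_nonneg (fun n hn => (mem_filter.mp hn).2)
      (fun n _ _ => mul_nonneg (by positivity) (hg n))
  exact ⟨summable_of_sum_le h0 key, Real.tsum_le_of_sum_le h0 key⟩

lemma Sg_lower {g : ℕ → ℝ} (hg : ∀ n, 0 ≤ g n) {C : ℝ} (hC : ∀ x, 0 ≤ x → Sm g x ≤ C * x)
    {T H η : ℝ} (hT : 1 / T ≤ η) (hT0 : 0 < T) (hH : 2 * η ≤ H) (y : ℝ) :
    II T η * Real.exp (-η - y) * (Sm g (Real.exp (y - η)) - C * Real.exp (y + η - H)) ≤
      Sg g T H y := by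
  have hη : 0 < η := lt_of_lt_of_le (by positivity) hT
  have hI : 0 ≤ II T η := le_trans (by norm_num) (II_ge hT0 hT)
  have hle : ⌊Real.exp (y + η - H)⌋₊ ≤ ⌊Real.exp (y - η)⌋₊ :=
    Nat.floor_mono (Real.exp_le_exp.mpr (by linarith))
  have e : Sm g (Real.exp (y - η)) - Sm g (Real.exp (y + η - H)) =
      ∑ n ∈ Ioc ⌊Real.exp (y + η - H)⌋₊ ⌊Real.exp (y - η)⌋₊, g n := by
    have := sum_Ioc_consecutive g (Nat.zero_le _) hle
    have e2 : ∀ N : ℕ, Icc 1 N = Ioc 0 N := fun N => by ext n; simp [Nat.succ_le_iff]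
    simp only [Sm, e2]
    linarith
  refine le_trans (mul_le_mul_of_nonneg_left (sub_le_sub_left (hC _ (Real.exp_pos _).le) _)
    (by positivity)) ?_
  rw [e, mul_sum]
  refine le_trans (sum_le_sum ?_) ((Sg_upper hg hC hT hT0 (by linarith) y).1.sum_le_tsum _
    (fun n _ => mul_nonneg (div_nonneg (hg n) (by positivity)) (kk_nonneg hT0 (by linarith) _)))
  intro n hn
  obtain ⟨h1, h2⟩ := mem_Ioc.mp hn
  have hn' : (0 : ℝ) < n := by exact_mod_cast (by omega : 0 < n)
  rw [Nat.floor_lt (Real.exp_pos _).le, ← Real.lt_log_iff_exp_lt hn'] at h1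
  rw [Nat.le_floor_iff (Real.exp_pos _).le, ← Real.log_le_iff_le_exp hn'] at h2
  refine le_trans (le_of_eq ?_) (mul_le_mul_of_nonneg_left
    (kk_ge (η := η) hT0 hη.le (by linarith) (by linarith)) (div_nonneg (hg n) hn'.le))
  rw [show -η - (y - Real.log n) = (-η - y) + Real.log n by ring, Real.exp_add, Real.exp_log hn']
  field_simp

lemma Sm_one (x : ℝ) : Sm (fun _ => 1) x = ⌊x⌋₊ := by simp [Sm]

lemma Sm_one_le (x : ℝ) (hx : 0 ≤ x) : Sm (fun _ => 1) x ≤ 1 * x := by
  rw [Sm_one, one_mul]; exact Nat.floor_le hx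

lemma Sg_sub {f : ℕ → ℝ} (hf : ∀ n, 0 ≤ f n) {C : ℝ} (hC : ∀ x, 0 ≤ x → Sm f x ≤ C * x)
    {A : ℝ} (hA : 0 ≤ A) (E : ℂ → ℂ) (hc : ContinuousOn E {s | 1 ≤ s.re})
    (hE : ∀ s : ℂ, 1 < s.re → LSeriesHasSum (fun n => ((f n - A : ℝ) : ℂ)) s (E s))
    {T H : ℝ} (hT0 : 0 < T) (hH : 0 < H) :
    Tendsto (fun y => Sg f T H y - A * Sg (fun _ => 1) T H y) atTop (𝓝 0) := by
  have hs : ∀ y : ℝ, Summable (fun n : ℕ => |f n - A| / n * (1 / (1 + (y - Real.log n) ^ 2))) := by
    intro y
    refine Summable.of_nonneg_of_le (fun n => by positivity) (fun n => ?_)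
      ((blk_summable hf hC y).add ((blk_summable (fun _ => zero_le_one) Sm_one_le y).mul_left A))
    rw [← mul_assoc, ← add_mul, mul_one_div A, ← add_div]
    have : |f n - A| ≤ f n + A := abs_le.mpr ⟨by linarith [hf n], by linarith⟩
    gcongr
  have e : ∀ y, Sg f T H y - A * Sg (fun _ => 1) T H y =
      ∫ v in (0 : ℝ)..H, Rf E T (y - v) * Real.exp (-v) := by
    intro y
    have s1 := (Sg_upper hf hC le_rfl hT0 hH.le y).1
    have s2 := (Sg_upper (fun _ => zero_le_one) Sm_one_le le_rfl hT0 hH.le y).1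
    rw [Sg, Sg, ← tsum_mul_left, ← s1.tsum_sub (s2.mul_left A)]
    apply HasSum.tsum_eq
    have e2 : ∀ n : ℕ, f n / n * kk T H (y - Real.log n) - A * (1 / n * kk T H (y - Real.log n)) =
        ∫ v in (0 : ℝ)..H, (f n - A) / n * Kf T (y - v - Real.log n) * Real.exp (-v) := by
      intro n
      simp only [mul_assoc, intervalIntegral.integral_const_mul, fun v => sub_right_comm y v (Real.log n)]
      rw [kk]; ring
    simp only [e2]
    have hk := Kf_cont T
    have bd : ∀ (n : ℕ) (v : ℝ), v ∈ Set.uIoc 0 H → ‖(f n - A) / n * Kf T (y - v - Real.log n)‖ ≤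
        (2 * T + 4 / T) * (2 + 2 * H ^ 2) * (|f n - A| / n * (1 / (1 + (y - Real.log n) ^ 2))) := by
      intro n v hv
      rw [Set.uIoc_of_le hH.le] at hv
      rw [norm_mul, Real.norm_eq_abs, Real.norm_eq_abs, abs_of_nonneg (Kf_nonneg hT0 _), abs_div,
        Nat.abs_cast, mul_left_comm]
      apply mul_le_mul_of_nonneg_left ((Kf_le' hT0 _).trans _) (by positivity)
      rw [mul_assoc]
      apply mul_le_mul_of_nonneg_left _ (by positivity)
      rw [mul_one_div, div_le_div_iff₀ (by positivity) (by positivity)]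
      have a6 : v ^ 2 ≤ H ^ 2 := pow_le_pow_left₀ hv.1.le hv.2 2
      nlinarith [sq_nonneg (y - Real.log n - 2 * v), sq_nonneg (H * (y - v - Real.log n))]
    apply intervalIntegral.hasSum_integral_of_dominated_convergence
      (fun n _ => (2 * T + 4 / T) * (2 + 2 * H ^ 2) *
        (|f n - A| / n * (1 / (1 + (y - Real.log n) ^ 2))))
      (fun n => Continuous.aestronglyMeasurable (by fun_prop))
    · intro n
      filter_upwards with v hv
      rw [norm_mul]
      refine (mul_le_of_le_one_right (norm_nonneg _) ?_).trans (bd n v hv)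
      rw [Set.uIoc_of_le hH.le] at hv
      rw [Real.norm_eq_abs, abs_of_pos (Real.exp_pos _)]
      exact Real.exp_le_one_iff.mpr (by linarith [hv.1])
    · filter_upwards with v _ using (hs y).mul_left _
    · simp
    · filter_upwards with v hv
      rw [← fourier_one _ E hc hE hT0 _ (hs _)]
      exact (Summable.of_norm_bounded ((hs y).mul_left _) (fun n => bd n v hv)).hasSum.mul_right _
  simp only [e]
  rw [Metric.tendsto_atTop]
  intro ε hε
  obtain ⟨y0, h0⟩ := Metric.tendsto_atTop.mp (Rf_tendsto E hc hT0) (ε / (2 * H)) (by positivity)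
  refine ⟨y0 + H, fun y hy => ?_⟩
  rw [dist_zero_right]
  refine (intervalIntegral.norm_integral_le_of_norm_le_const (C := ε / (2 * H))
    (fun v hv => ?_)).trans_lt ?_
  · rw [Set.uIoc_of_le hH.le] at hv
    have := h0 (y - v) (by linarith [hv.2])
    rw [dist_zero_right] at this
    rw [norm_mul]
    refine (mul_le_of_le_one_right (norm_nonneg _) ?_).trans this.le
    rw [Real.norm_eq_abs, abs_of_pos (Real.exp_pos _)]
    exact Real.exp_le_one_iff.mpr (by linarith [hv.1])
  · rw [sub_zero, abs_of_pos hH, show ε / (2 * H) * H = ε / 2 by field_simp]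
    linarith

lemma squeeze {f : ℕ → ℝ} (hf : ∀ n, 0 ≤ f n) {C : ℝ} (hC : ∀ x, 0 ≤ x → Sm f x ≤ C * x)
    {A : ℝ} (hA : 0 ≤ A) (E : ℂ → ℂ) (hc : ContinuousOn E {s | 1 ≤ s.re})
    (hE : ∀ s : ℂ, 1 < s.re → LSeriesHasSum (fun n => ((f n - A : ℝ) : ℂ)) s (E s))
    {t : ℝ} (ht : 0 < t) (ht1 : t ≤ 1 / 2) : ∀ᶠ y in atTop,
      Real.exp (-(2 * t)) * (A * Real.exp (-t) * (Real.exp (-t) - t - Real.exp t * t) -
        2 * (t * (C * c0) + t)) ≤ Sm f (Real.exp y) / Real.exp y ∧
      Sm f (Real.exp y) / Real.exp y ≤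
        Real.exp (2 * t) * (A * Real.exp (2 * t) + 2 * (A * (t * c0) + t) + C * t) := by
  have hC0 : 0 ≤ C := by
    have := hC 1 zero_le_one
    have h2 : 0 ≤ Sm f 1 := sum_nonneg (fun n _ => hf n)
    linarith
  have hc0 := c0_nonneg
  set H : ℝ := 1 / t with hH
  have hH0 : 0 < H := by positivity
  have hH2 : 2 * t ≤ H := by rw [hH, le_div_iff₀ ht]; nlinarith
  have hH3 : Real.exp (-H) ≤ t := by
    rw [Real.exp_neg, inv_le_comm₀ (Real.exp_pos _) ht, ← one_div]
    linarith [Real.add_one_le_exp H]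
  set b : ℝ := H * (2 * (2 + (1 + 2 * H ^ 2) / t ^ 2)) with hb
  have hb0 : 0 < b := by positivity
  set T : ℝ := 1 / t + b / t with hT
  have hT0 : 0 < T := by positivity
  have hT1 : 1 / T ≤ t := by
    rw [div_le_iff₀ hT0, hT, mul_add, mul_one_div_cancel ht.ne']
    have : 0 < t * (b / t) := by positivity
    linarith
  have hT2 : H * (2 * (2 + (1 + 2 * H ^ 2) / t ^ 2) / T) ≤ t := by
    rw [← mul_div_assoc, ← hb, div_le_iff₀ hT0, hT, mul_add, mul_div_cancel₀ _ ht.ne',
      mul_div_cancel₀ _ ht.ne']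
    linarith
  have hI := II_ge hT0 hT1
  set I := II T t with hId
  have h1 := (Sg_sub hf hC hA E hc hE hT0 hH0).eventually (Icc_mem_nhds (neg_lt_zero.mpr ht) ht)
  have h2 := (tendsto_atTop_add_const_right _ (-t) tendsto_id).eventually h1
  have h3 := (tendsto_atTop_add_const_right _ t tendsto_id).eventually h1
  have h4 := (Real.tendsto_exp_neg_atTop_nhds_zero.comp
    (tendsto_atTop_add_const_right _ (-t) tendsto_id)).eventually (ge_mem_nhds ht)
  clear_value I T b
  filter_upwards [h2, h3, h4] with y b2 b3 b4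
  simp only [id, Function.comp, ← sub_eq_add_neg] at b2 b3 b4
  have hx := Real.exp_pos y
  have ha := Real.exp_pos t
  set x := Real.exp y with hxd
  set a := Real.exp t with had
  set d := Real.exp (-H) with hd
  have hd0 : 0 < d := Real.exp_pos _
  have hS : 0 ≤ Sm f x := sum_nonneg (fun n _ => hf n)
  constructor
  · have u1 := (Sg_upper hf hC hT1 hT0 hH0.le (y - t)).2
    have u2 := Sg_lower (fun _ => zero_le_one) Sm_one_le hT1 hT0 hH2 (y - t)
    have u3 := mul_le_mul_of_nonneg_right hT2 (mul_nonneg hC0 hc0)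
    have u4 := Nat.lt_floor_add_one (Real.exp (y - t - t))
    rw [sub_add_cancel, ← hId, ← hxd] at u1
    rw [Sm_one, ← hId] at u2
    have e1 : Real.exp (t - (y - t)) = a ^ 2 / x := by
      rw [Real.exp_sub, Real.exp_sub, ← had, ← hxd]; field_simp
    have e2 : Real.exp (-t - (y - t)) = 1 / x := by
      rw [show -t - (y - t) = -y by ring, Real.exp_neg, one_div]
    have e3 : Real.exp (y - t - t) = x / a ^ 2 := by
      rw [Real.exp_sub, Real.exp_sub, ← had, ← hxd]; field_simp
    have e4 : Real.exp (y - t + t - H) = x * d := by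
      rw [sub_add_cancel, sub_eq_add_neg, Real.exp_add]
    have e5 : Real.exp (-(y - t)) = a / x := by rw [neg_sub, Real.exp_sub]
    have e6 : Real.exp (-(2 * t)) = 1 / a ^ 2 := by
      rw [Real.exp_neg, two_mul, Real.exp_add, one_div, sq]
    rw [e1] at u1
    rw [e2, e3, e4] at u2
    rw [e3] at u4
    rw [e5] at b4
    rw [e6, Real.exp_neg, ← had]
    have v1 : a⁻¹ * (a⁻¹ - t - a * t) ≤ 1 / x * (⌊x / a ^ 2⌋₊ - 1 * (x * d)) := by
      have w1 : a⁻¹ * (a⁻¹ - t - a * t) = 1 / x * (x / a ^ 2 - x / a * t - x * t) := by field_simp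
      rw [w1]
      apply mul_le_mul_of_nonneg_left _ (by positivity)
      have w2 : 1 ≤ x / a * t := by
        rw [div_le_iff₀ hx] at b4
        rw [div_mul_eq_mul_div, le_div_iff₀ ha]; linarith
      nlinarith
    have v2 := mul_le_mul_of_nonneg_left v1 (by positivity : 0 ≤ A * I)
    have v3 := mul_le_mul_of_nonneg_left u2 hA
    have v4 : I * (A * a⁻¹ * (a⁻¹ - t - a * t)) - (t * (C * c0) + t) ≤ I * (a ^ 2 * (Sm f x / x)) := by
      have : I * (a ^ 2 * (Sm f x / x)) = I * (a ^ 2 / x) * Sm f x := by ring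
      have := b2.1
      linarith
    rw [one_div, inv_mul_le_iff₀ (by positivity)]
    apply le_of_mul_le_mul_left _ (show 0 < I by linarith)
    have := mul_le_mul_of_nonneg_right hI (by positivity : 0 ≤ t * (C * c0) + t)
    linarith
  · have u1 := (Sg_upper (fun _ => zero_le_one) Sm_one_le hT1 hT0 hH0.le (y + t)).2
    have u2 := Sg_lower hf hC hT1 hT0 hH2 (y + t)
    have u3 := mul_le_mul_of_nonneg_right hT2 hc0
    have u4 := Sm_one_le _ (Real.exp_pos (y + t + t)).le
    rw [add_sub_cancel_right, ← hId, ← hxd] at u2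
    rw [← hId] at u1
    have e1 : Real.exp (t - (y + t)) = 1 / x := by
      rw [show t - (y + t) = -y by ring, Real.exp_neg, one_div]
    have e2 : Real.exp (-t - (y + t)) = 1 / (x * a ^ 2) := by
      rw [show -t - (y + t) = -(y + (t + t)) by ring, Real.exp_neg, Real.exp_add, Real.exp_add,
        one_div, sq]
    have e3 : Real.exp (y + t + t) = x * a ^ 2 := by
      rw [Real.exp_add, Real.exp_add, sq, mul_assoc]
    have e4 : Real.exp (y + t + t - H) = x * a ^ 2 * d := by
      rw [sub_eq_add_neg, Real.exp_add, e3]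
    have e6 : Real.exp (2 * t) = a ^ 2 := by rw [two_mul, Real.exp_add, sq]
    rw [e1, e3] at u1
    rw [e2, e4] at u2
    rw [e3] at u4
    rw [e6]
    have v1 : I * (1 / x) * Sm (fun _ => 1) (x * a ^ 2) ≤ I * a ^ 2 := by
      refine (mul_le_mul_of_nonneg_left u4 (by positivity)).trans (le_of_eq ?_)
      field_simp
    have v2 := mul_le_mul_of_nonneg_left (u1.trans (add_le_add v1 (by simpa using u3))) hA
    have v3 : I * (1 / (x * a ^ 2)) * (Sm f x - C * (x * a ^ 2 * d)) =
        I * (Sm f x / x / a ^ 2 - C * d) := by field_simp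
    rw [v3] at u2
    rw [← div_le_iff₀' (by positivity)]
    apply le_of_mul_le_mul_left _ (show 0 < I by linarith)
    have v4 := mul_le_mul_of_nonneg_left hH3 (by positivity : 0 ≤ I * C)
    have := mul_le_mul_of_nonneg_right hI (by positivity : 0 ≤ A * (t * c0) + t)
    have := b3.2
    linarith

/-- The Wiener-Ikehara theorem for nonnegative coefficients with a Chebyshev bound. -/
theorem wiener_ikehara {f : ℕ → ℝ} (hf : ∀ n, 0 ≤ f n) {C : ℝ} (hC : ∀ x, 0 ≤ x → Sm f x ≤ C * x)
    {A : ℝ} (hA : 0 ≤ A) (G : ℂ → ℂ) (hG : ContinuousOn G {s | 1 ≤ s.re})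
    (hL : ∀ s : ℂ, 1 < s.re → LSeriesHasSum (fun n => (f n : ℂ)) s (G s + A / (s - 1))) :
    Tendsto (fun x => Sm f x / x) atTop (𝓝 A) := by
  classical
  set Z : ℂ → ℂ := Function.update (fun s => riemannZeta s - 1 / (s - 1)) 1
    (Real.eulerMascheroniConstant : ℂ) with hZ
  have hZc : Continuous Z := by
    rw [continuous_iff_continuousAt]
    intro s
    by_cases hs : s = 1
    · rw [hs, continuousAt_update_same]; exact tendsto_riemannZeta_sub_one_div
    · rw [continuousAt_update_of_ne hs]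
      exact (differentiableAt_riemannZeta hs).continuousAt.sub
        (continuousAt_const.div (by fun_prop) (sub_ne_zero.mpr hs))
  have hE : ∀ s : ℂ, 1 < s.re → LSeriesHasSum (fun n => ((f n - A : ℝ) : ℂ)) s (G s - A * Z s) := by
    intro s hs
    have h1 := (hL s hs).sub ((LSeriesHasSum_one hs).smul (A : ℂ))
    have hs1 : s ≠ 1 := by rintro rfl; simp at hs
    convert h1 using 1
    · ext n; simp
    · rw [hZ, Function.update_of_ne hs1]; ring
  have hc : ContinuousOn (fun s => G s - A * Z s) {s | 1 ≤ s.re} :=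
    hG.sub (continuous_const.mul hZc).continuousOn
  have key : Tendsto (fun y => Sm f (Real.exp y) / Real.exp y) atTop (𝓝 A) := by
    have hsm : ∀ᶠ t : ℝ in 𝓝[>] 0, 0 < t ∧ t ≤ 1 / 2 := by
      filter_upwards [Ioc_mem_nhdsGT (show (0 : ℝ) < 1 / 2 by norm_num)] with t ht using ht
    rw [tendsto_order]
    constructor
    · intro a ha
      have c1 : ContinuousAt (fun t : ℝ => Real.exp (-(2 * t)) * (A * Real.exp (-t) *
        (Real.exp (-t) - t - Real.exp t * t) - 2 * (t * (C * c0) + t))) 0 := by fun_prop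
      obtain ⟨t, h1, h2⟩ := (((c1.tendsto.eventually (lt_mem_nhds (a := a) (by simpa using ha))).filter_mono
        nhdsWithin_le_nhds).and hsm).exists
      filter_upwards [squeeze hf hC hA _ hc hE h2.1 h2.2] with y hy using h1.trans_le hy.1
    · intro a ha
      have c1 : ContinuousAt (fun t : ℝ => Real.exp (2 * t) * (A * Real.exp (2 * t) +
        2 * (A * (t * c0) + t) + C * t)) 0 := by fun_prop
      obtain ⟨t, h1, h2⟩ := (((c1.tendsto.eventually (gt_mem_nhds (a := a) (by simpa using ha))).filter_mono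
        nhdsWithin_le_nhds).and hsm).exists
      filter_upwards [squeeze hf hC hA _ hc hE h2.1 h2.2] with y hy using hy.2.trans_lt h1
  refine (key.comp Real.tendsto_log_atTop).congr' ?_
  filter_upwards [eventually_gt_atTop 0] with x hx
  simp only [Function.comp, Real.exp_log hx]

end Pool.Agent.Lib.PNT
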